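import Pool.Agent.H58.TC.Defs
import Pool.Agent.H58.TC.Fin3
import Pool.Agent.H58.TC.Asm
import Pool.Agent.H58.TC.C2
import Pool.Agent.H58.TC.CAlg

/-!
# MP_e53872_an: good for 2-convergence of powers does not imply good for commuting maps

There is a sequence of integers which is good for `2`-convergence of powers of a single map but
not good for `2`-convergence of commuting transformations.

Outline. Level `j` uses four generators `q 0, .., q 3` (much larger than everything before) and a
random multiple of one of the five directions `q 0, q 1, q 2, q 3, q 0 + q 1 + q 2 + q 3` (these
are five lines in `(ZMod 3) ^ 4`), smoothed at random scales. The weight is the cube root of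
unity to the power (coefficient modulo 3 of the last direction), summed over the levels.
* For a single map the weighted averages of `T^a f · T^(2a) g` tend to zero geometrically
  (exact Cauchy-Schwarz argument, `bmain`).
* For arbitrary commuting maps the unweighted averages along the stage laws converge
  (Walsh type argument with random scales, `astmt`).
* On an explicit extension of an odometer two commuting maps and two functions reproduce the
  weight (`c2`), so the weighted averages do not tend to zero.
The sequence follows alternately the unweighted stage laws and the laws tilted by
`1 + Re (weight)`.
-/

namespace Pool.Agent.Results.MP_e53872_an.PowersNotCommuting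

open Pool.Agent.H58.TC

theorem result.{u, v} : ∃ a : ℕ → ℤ, GoodPowers.{u} 2 a ∧ ¬ GoodCommuting.{v} 2 a :=
  ⟨asmSeq plaw,
    goodPowers_two fun _ _ hM _ h => asm_forward plaw hM h,
    not_good (fun _ _ hM _ h => asm_backward plaw hM h)
      (cstmt_lift (c2 alg count (carry count)))⟩

end Pool.Agent.Results.MP_e53872_an.PowersNotCommuting
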